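import Mathlib

namespace Pool.Agent.W400.GS

open Subgroup
open scoped commutatorElement

section Unipotent

variable {V : Type*} [AddCommGroup V] [Module ℚ V]

theorem iter_add (T : V →ₗ[ℚ] V) (w : V) (h2 : (T - 1) ((T - 1) w) = 0) (j : ℕ) :
    (T ^ j) w = w + (j : ℚ) • ((T - 1) w) := by
  have hT : ∀ v, T v = v + (T - 1) v := fun v => by simp
  induction j with
  | zero => simp
  | succ j ih =>
    rw [pow_succ', Module.End.mul_apply, ih, map_add, map_smul, hT w, hT ((T - 1) w), h2]
    push_cast
    rw [add_smul, add_zero, one_smul]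
    abel

theorem unipotent_finite_order (T : V →ₗ[ℚ] V) (m : ℕ) (hm : 0 < m)
    (hT : ∀ v, (T ^ m) v = v) (k : ℕ) : ∀ v, ((T - 1) ^ k) v = 0 → (T - 1) v = 0 := by
  -- reduce exponent
  have key : ∀ w, (T - 1) ((T - 1) w) = 0 → (T - 1) w = 0 := by
    intro w hw
    have h1 := iter_add T w hw m
    rw [hT w] at h1
    have h2 : (m : ℚ) • ((T - 1) w) = 0 := by
      have := h1
      nth_rewrite 1 [← add_zero w] at this
      exact (add_left_cancel this).symm
    have h3 : (m : ℚ) ≠ 0 := by exact_mod_cast hm.ne'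
    exact (smul_eq_zero.mp h2).resolve_left h3
  induction k with
  | zero =>
    intro v hv
    have : v = 0 := by simpa using hv
    rw [this, map_zero]
  | succ k ih =>
    intro v hv
    rcases Nat.eq_zero_or_pos k with hk | hk
    · subst hk; simpa using hv
    · apply ih
      obtain ⟨l, rfl⟩ : ∃ l, k = l + 1 := ⟨k - 1, by omega⟩
      have h1 : ((T - 1) ^ (l + 1 + 1)) v = (T - 1) ((T - 1) (((T - 1) ^ l) v)) := by
        rw [pow_succ', pow_succ']; rfl
      have h2 : ((T - 1) ^ (l + 1)) v = (T - 1) (((T - 1) ^ l) v) := by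
        rw [pow_succ']; rfl
      rw [h2]
      exact key _ (by rw [← h1]; exact hv)

end Unipotent

section Extension

variable {G : Type*} [Group G]

/-- A conjugation invariant homomorphism to `ℚ` on a normal subgroup of finite index extends. -/
theorem exists_extension (H : Subgroup G) [hN : H.Normal] [H.FiniteIndex]
    (f : H → ℚ) (hf : ∀ a b, f (a * b) = f a + f b)
    (hinv : ∀ (g : G) (h : H), f ⟨g * h * g⁻¹, hN.conj_mem h h.2 g⟩ = f h) :
    ∃ ψ : G → ℚ, (∀ a b, ψ (a * b) = ψ a + ψ b) ∧ ∀ h : H, ψ h = f h := by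
  classical
  have : Fintype (G ⧸ H) := H.fintypeQuotientOfFiniteIndex
  have hmem : ∀ (g : G) (q : G ⧸ H), (Quotient.out (g • q))⁻¹ * (g * Quotient.out q) ∈ H := by
    intro g q
    rw [← QuotientGroup.eq]
    have h1 : ((Quotient.out (g • q) : G) : G ⧸ H) = g • q := Quotient.out_eq' (g • q)
    have h2 : ((g * Quotient.out q : G) : G ⧸ H) = g • q := by
      conv_rhs => rw [← Quotient.out_eq' q]
      rfl
    rw [h1, h2]
  let e : G → G ⧸ H → H := fun g q => ⟨_, hmem g q⟩
  have he : ∀ a b q, e (a * b) q = e a (b • q) * e b q := by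
    intro a b q
    apply Subtype.ext
    simp only [e, Subgroup.coe_mul, mul_smul]
    group
  let c : ℚ := Fintype.card (G ⧸ H)
  have hc : c ≠ 0 := by
    simp only [c, ne_eq, Nat.cast_eq_zero]
    exact Fintype.card_ne_zero
  refine ⟨fun g => c⁻¹ * ∑ q, f (e g q), ?_, ?_⟩
  · intro a b
    have h1 : ∑ q, f (e (a * b) q) = ∑ q, f (e a (b • q)) + ∑ q, f (e b q) := by
      rw [← Finset.sum_add_distrib]
      apply Finset.sum_congr rfl
      intro q _
      rw [he, hf]
    have h2 : ∑ q, f (e a (b • q)) = ∑ q, f (e a q) :=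
      Equiv.sum_comp (MulAction.toPerm b) (fun q => f (e a q))
    simp only
    rw [h1, h2, mul_add]
  · intro h
    have h3 : ∀ q : G ⧸ H, (h : G) • q = q := by
      intro q
      conv_lhs => rw [← Quotient.out_eq' q]
      conv_rhs => rw [← Quotient.out_eq' q]
      change (((h : G) * Quotient.out q : G) : G ⧸ H) = ((Quotient.out q : G) : G ⧸ H)
      rw [eq_comm, QuotientGroup.eq]
      have := hN.conj_mem h h.2 (Quotient.out q)⁻¹
      simpa [mul_assoc] using this
    have h4 : ∀ q, f (e h q) = f h := by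
      intro q
      rw [← hinv (Quotient.out q)⁻¹ h]
      congr 1
      apply Subtype.ext
      simp only [e, h3 q, inv_inv]
      group
    simp only [h4, Finset.sum_const, Finset.card_univ, nsmul_eq_mul]
    change c⁻¹ * (c * f h) = f h
    field_simp

end Extension

section Invariance

variable {G : Type*} [Group G]

/-- `QH H` : homomorphisms from `H` to `ℚ`, as a rational vector space. -/
abbrev QH (H : Type*) [Group H] := Additive H →+ ℚ

/-- conjugation operator on homomorphisms. -/
def conjOp (H : Subgroup G) [hN : H.Normal] (g : G) : QH H →ₗ[ℚ] QH H where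
  toFun φ := φ.comp (MonoidHom.toAdditive ((MulAut.conjNormal g : MulAut H).toMonoidHom))
  map_add' _ _ := rfl
  map_smul' _ _ := rfl

theorem conjOp_apply (H : Subgroup G) [hN : H.Normal] (g : G) (φ : QH H) (h : H) :
    conjOp H g φ (Additive.ofMul h) = φ (Additive.ofMul (MulAut.conjNormal g h)) := rfl

theorem conjOp_pow_apply (H : Subgroup G) [hN : H.Normal] (g : G) (k : ℕ) (φ : QH H) (h : H) :
    ((conjOp H g) ^ k) φ (Additive.ofMul h) = φ (Additive.ofMul (MulAut.conjNormal (g ^ k) h)) := by
  induction k generalizing h with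
  | zero => simp
  | succ k ih =>
    rw [pow_succ', Module.End.mul_apply, conjOp_apply, ih, pow_succ, map_mul]
    rfl

theorem conjOp_pow_index (H : Subgroup G) [hN : H.Normal] (g : G) (φ : QH H) :
    ((conjOp H g) ^ H.index) φ = φ := by
  ext h
  change ((conjOp H g) ^ H.index) φ (Additive.ofMul h) = φ (Additive.ofMul h)
  rw [conjOp_pow_apply]
  have hmem : g ^ H.index ∈ H := H.pow_index_mem g
  have : MulAut.conjNormal (g ^ H.index) h = ⟨g ^ H.index, hmem⟩ * h * ⟨g ^ H.index, hmem⟩⁻¹ := by
    apply Subtype.ext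
    rw [MulAut.conjNormal_apply]
    rfl
  rw [this, ofMul_mul, ofMul_mul, map_add, map_add, ofMul_inv, map_neg]
  ring

/-- iterated commutator inside `H`. -/
theorem conjOp_sub_one (H : Subgroup G) [hN : H.Normal] (g : G) (k : ℕ) (φ : QH H) (h : H) :
    ∃ h' : H, (h' : G) ∈ (⊤ : Subgroup G).lowerCentralSeries k ∧
      ((conjOp H g - 1) ^ k) φ (Additive.ofMul h) = φ (Additive.ofMul h') := by
  induction k generalizing φ with
  | zero => exact ⟨h, by simp, by simp⟩
  | succ k ih =>
    rw [pow_succ]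
    obtain ⟨h', hh', h2⟩ := ih ((conjOp H g - 1) φ)
    refine ⟨⟨g * h' * g⁻¹ * (h' : G)⁻¹, H.mul_mem (hN.conj_mem _ h'.2 g) (H.inv_mem h'.2)⟩, ?_, ?_⟩
    · change g * h' * g⁻¹ * (h' : G)⁻¹ ∈ _
      have h3 : ⁅(h' : G), g⁆⁻¹ = g * h' * g⁻¹ * (h' : G)⁻¹ := by
        rw [commutatorElement_inv, commutatorElement_def]
      rw [← h3]
      apply Subgroup.inv_mem
      rw [Subgroup.lowerCentralSeries_succ]
      exact Subgroup.commutator_mem_commutator hh' (Subgroup.mem_top g)
    · rw [Module.End.mul_apply, h2]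
      have h4 : (⟨g * h' * g⁻¹ * (h' : G)⁻¹, H.mul_mem (hN.conj_mem _ h'.2 g) (H.inv_mem h'.2)⟩ : H)
          = MulAut.conjNormal g h' * h'⁻¹ := by
        apply Subtype.ext; simp
      rw [h4, ofMul_mul, map_add, ofMul_inv, map_neg]
      simp only [LinearMap.sub_apply, Module.End.one_apply, AddMonoidHom.sub_apply, conjOp_apply]
      ring

theorem conj_invariant (H : Subgroup G) [hN : H.Normal] [H.FiniteIndex] (N : ℕ) (φ : QH H)
    (hφ : ∀ h : H, (h : G) ∈ (⊤ : Subgroup G).lowerCentralSeries N → φ (Additive.ofMul h) = 0)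
    (g : G) (h : H) : φ (Additive.ofMul (MulAut.conjNormal g h)) = φ (Additive.ofMul h) := by
  have h1 : ((conjOp H g - 1) ^ N) φ = 0 := by
    ext x
    change ((conjOp H g - 1) ^ N) φ (Additive.ofMul x) = 0
    obtain ⟨h', hh', h2⟩ := conjOp_sub_one H g N φ x
    rw [h2, hφ h' hh']
  have h2 := unipotent_finite_order (conjOp H g) H.index
    (Nat.pos_of_ne_zero FiniteIndex.index_ne_zero) (conjOp_pow_index H g) N φ h1
  have h3 : conjOp H g φ = φ := by
    rw [LinearMap.sub_apply, Module.End.one_apply, sub_eq_zero] at h2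
    exact h2
  have h4 := DFunLike.congr_fun h3 (Additive.ofMul h)
  rwa [conjOp_apply] at h4

/-- restriction of homomorphisms to a subgroup. -/
def restr (H : Subgroup G) : QH G →ₗ[ℚ] QH H where
  toFun φ := φ.comp (MonoidHom.toAdditive H.subtype)
  map_add' _ _ := rfl
  map_smul' _ _ := rfl

theorem mem_range_restr (H : Subgroup G) [hN : H.Normal] [H.FiniteIndex] (N : ℕ) (φ : QH H)
    (hφ : ∀ h : H, (h : G) ∈ (⊤ : Subgroup G).lowerCentralSeries N → φ (Additive.ofMul h) = 0) :
    φ ∈ LinearMap.range (restr H) := by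
  obtain ⟨ψ, hψ1, hψ2⟩ := exists_extension H (fun h => φ (Additive.ofMul h))
    (fun a b => by simp only [ofMul_mul, map_add])
    (fun g h => conj_invariant H N φ hφ g h)
  have h0 : ψ 1 = 0 := by
    have := hψ1 1 1
    rw [mul_one] at this
    linarith
  refine ⟨{ toFun := fun a => ψ a.toMul, map_zero' := h0, map_add' := fun a b => hψ1 _ _ }, ?_⟩
  apply AddMonoidHom.ext
  intro h
  exact hψ2 h.toMul

end Invariance

section Finite

variable {G : Type*} [Group G]

theorem finite_QH [Group.FG G] : Module.Finite ℚ (QH G) := by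
  obtain ⟨S, hS⟩ := Group.fg_def.mp (inferInstance : Group.FG G)
  let L : QH G →ₗ[ℚ] (S → ℚ) :=
    { toFun := fun φ s => φ (Additive.ofMul (s : G))
      map_add' := fun _ _ => rfl
      map_smul' := fun _ _ => rfl }
  apply Module.Finite.of_injective L
  intro φ ψ h
  have h1 : ∀ s ∈ S, φ (Additive.ofMul s) = ψ (Additive.ofMul s) :=
    fun s hs => congr_fun h ⟨s, hs⟩
  have h2 : AddMonoidHom.toMultiplicativeRight φ = AddMonoidHom.toMultiplicativeRight ψ := by
    apply MonoidHom.eq_of_eqOn_dense hS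
    intro s hs
    exact congrArg Multiplicative.ofAdd (h1 s hs)
  exact AddMonoidHom.toMultiplicativeRight.injective h2

/-- Killing: a small set of elements of `H ∩ γ_{N+1}` detects vanishing on `H ∩ γ_{N+1}`. -/
theorem exists_killing (H : Subgroup G) [Group.FG H] (N : ℕ) :
    ∃ R : Finset G, (∀ r ∈ R, r ∈ H ∧ r ∈ (⊤ : Subgroup G).lowerCentralSeries N) ∧
      R.card ≤ Module.finrank ℚ (QH H) ∧
      ∀ φ : QH H, (∀ r (hr : r ∈ H), r ∈ R → φ (Additive.ofMul ⟨r, hr⟩) = 0) →
        ∀ h : H, (h : G) ∈ (⊤ : Subgroup G).lowerCentralSeries N → φ (Additive.ofMul h) = 0 := by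
  classical
  have hfin : Module.Finite ℚ (QH H) := finite_QH
  let ι := {h : H // (h : G) ∈ (⊤ : Subgroup G).lowerCentralSeries N}
  let ev : ι → Module.Dual ℚ (QH H) := fun i =>
    { toFun := fun φ => φ (Additive.ofMul i.1)
      map_add' := fun _ _ => rfl
      map_smul' := fun _ _ => rfl }
  obtain ⟨κ, a, -, hsp, hli⟩ := exists_linearIndependent' ℚ ev
  have hfκ : Finite κ := hli.finite
  have : Fintype κ := Fintype.ofFinite κ
  refine ⟨Finset.univ.image (fun k : κ => ((a k).1 : G)), ?_, ?_, ?_⟩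
  · intro r hr
    obtain ⟨k, -, rfl⟩ := Finset.mem_image.mp hr
    exact ⟨(a k).1.2, (a k).2⟩
  · calc _ ≤ (Finset.univ : Finset κ).card := Finset.card_image_le
      _ = Fintype.card κ := Finset.card_univ
      _ ≤ Module.finrank ℚ (Module.Dual ℚ (QH H)) := hli.fintype_card_le_finrank
      _ = _ := Subspace.dual_finrank_eq
  · intro φ hφ h hh
    have h1 : ev ⟨h, hh⟩ ∈ Submodule.span ℚ (Set.range (ev ∘ a)) := by
      rw [hsp]; exact Submodule.subset_span ⟨_, rfl⟩
    have h2 : Submodule.span ℚ (Set.range (ev ∘ a)) ≤ LinearMap.ker (Module.Dual.eval ℚ (QH H) φ) := by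
      rw [Submodule.span_le]
      rintro _ ⟨k, rfl⟩
      change (Module.Dual.eval ℚ (QH H) φ) (ev (a k)) = 0
      rw [Module.Dual.eval_apply]
      change φ (Additive.ofMul (a k).1) = 0
      exact hφ _ (a k).1.2 (Finset.mem_image.mpr ⟨k, Finset.mem_univ _, rfl⟩)
    have h3 := h2 h1
    rw [LinearMap.mem_ker, Module.Dual.eval_apply] at h3
    exact h3

end Finite

section Cofinal

/-- The intersection of the kernels of all homomorphisms to `Perm (Fin m)`. -/
def core (d m : ℕ) : Subgroup (FreeGroup (Fin d)) :=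
  ⨅ ρ : FreeGroup (Fin d) →* Equiv.Perm (Fin m), ρ.ker

instance core_normal (d m : ℕ) : (core d m).Normal := by
  unfold core
  exact Subgroup.normal_iInf_normal fun ρ => inferInstance

instance core_finiteIndex (d m : ℕ) : (core d m).FiniteIndex := by
  unfold core
  have : Finite (FreeGroup (Fin d) →* Equiv.Perm (Fin m)) :=
    Finite.of_equiv _ (FreeGroup.lift : (Fin d → Equiv.Perm (Fin m)) ≃ _)
  apply Subgroup.finiteIndex_iInf
  intro ρ
  exact inferInstance

theorem core_le (d : ℕ) (K : Subgroup (FreeGroup (Fin d))) [K.FiniteIndex] :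
    core d K.index ≤ K := by
  have hf : Finite (FreeGroup (Fin d) ⧸ K) := inferInstance
  let e : (FreeGroup (Fin d) ⧸ K) ≃ Fin K.index := Finite.equivFin _
  let ρ : FreeGroup (Fin d) →* Equiv.Perm (Fin K.index) :=
    (e.permCongrHom.toMonoidHom).comp (MulAction.toPermHom (FreeGroup (Fin d)) (FreeGroup (Fin d) ⧸ K))
  have h1 : ρ.ker = (MulAction.toPermHom (FreeGroup (Fin d)) (FreeGroup (Fin d) ⧸ K)).ker := by
    ext x
    simp [ρ, MonoidHom.mem_ker]
  have h2 : core d K.index ≤ ρ.ker := iInf_le _ ρ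
  rw [h1, ← Subgroup.normalCore_eq_ker] at h2
  exact h2.trans K.normalCore_le

end Cofinal

section Betti

open TensorProduct

/-- rationalised abelianisation -/
abbrev RatAb (K : Type) [Group K] : Type := TensorProduct ℤ ℚ (Additive (Abelianization K))

/-- the homomorphism `H → K` used below -/
def jmap {d : ℕ} {R : Set (FreeGroup (Fin d))} (K : Subgroup (PresentedGroup R))
    (H : Subgroup (FreeGroup (Fin d))) (hle : H ≤ K.comap (PresentedGroup.mk R)) : H →* K :=
  ((PresentedGroup.mk R).comp H.subtype).codRestrict K (fun h => hle h.2)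

/-- Functionals on the rationalised abelianisation of `K`, pulled back to `H`. -/
noncomputable def pull {d : ℕ} {R : Set (FreeGroup (Fin d))} (K : Subgroup (PresentedGroup R))
    (H : Subgroup (FreeGroup (Fin d))) (hle : H ≤ K.comap (PresentedGroup.mk R)) :
    Module.Dual ℚ (RatAb K) →ₗ[ℚ] QH H where
  toFun f :=
    { toFun := fun h => f ((1 : ℚ) ⊗ₜ[ℤ] (Additive.ofMul (Abelianization.of (jmap K H hle h.toMul))))
      map_zero' := by
        rw [toMul_zero, map_one, map_one, ofMul_one, TensorProduct.tmul_zero, map_zero]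
      map_add' := fun a b => by
        rw [toMul_add, map_mul, map_mul, ofMul_mul, TensorProduct.tmul_add, map_add] }
  map_add' _ _ := rfl
  map_smul' _ _ := rfl

theorem pull_apply {d : ℕ} {R : Set (FreeGroup (Fin d))} (K : Subgroup (PresentedGroup R))
    (H : Subgroup (FreeGroup (Fin d))) (hle : H ≤ K.comap (PresentedGroup.mk R))
    (f : Module.Dual ℚ (RatAb K)) (h : H) :
    pull K H hle f (Additive.ofMul h) =
      f ((1 : ℚ) ⊗ₜ[ℤ] (Additive.ofMul (Abelianization.of (jmap K H hle h)))) := rfl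

theorem pull_injective {d : ℕ} {R : Set (FreeGroup (Fin d))} (K : Subgroup (PresentedGroup R))
    (H : Subgroup (FreeGroup (Fin d))) [H.Normal] [H.FiniteIndex]
    (hle : H ≤ K.comap (PresentedGroup.mk R)) :
    Function.Injective (pull K H hle) := by
  rw [← LinearMap.ker_eq_bot, LinearMap.ker_eq_bot']
  intro f hf
  have h1 : ∀ k : K, f ((1 : ℚ) ⊗ₜ[ℤ] (Additive.ofMul (Abelianization.of k))) = 0 := by
    intro k
    obtain ⟨x, hx⟩ := PresentedGroup.mk_surjective R (k : PresentedGroup R)
    have hmem : x ^ H.index ∈ H := H.pow_index_mem x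
    have h2 := DFunLike.congr_fun hf (Additive.ofMul (⟨x ^ H.index, hmem⟩ : H))
    rw [pull_apply] at h2
    have h3 : jmap K H hle ⟨x ^ H.index, hmem⟩ = k ^ H.index := by
      apply Subtype.ext
      change PresentedGroup.mk R (x ^ H.index) = _
      rw [map_pow, hx]
      rfl
    rw [h3, map_pow, ofMul_pow, TensorProduct.tmul_smul, map_nsmul, AddMonoidHom.zero_apply,
      nsmul_eq_mul] at h2
    have h4 : (H.index : ℚ) ≠ 0 := by exact_mod_cast FiniteIndex.index_ne_zero
    exact (mul_eq_zero.mp h2).resolve_left h4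
  apply LinearMap.ext
  intro v
  induction v using TensorProduct.induction_on with
  | zero => rw [map_zero, map_zero]
  | add x y hx hy => rw [map_add, map_add, hx, hy]
  | tmul q a =>
    obtain ⟨k, hk⟩ := Quot.exists_rep (Additive.toMul a : Abelianization K)
    have ha : a = Additive.ofMul (Abelianization.of k) := by
      rw [← ofMul_toMul a, ← hk]; rfl
    have h5 : q ⊗ₜ[ℤ] a = q • ((1 : ℚ) ⊗ₜ[ℤ] a) := by
      rw [TensorProduct.smul_tmul', smul_eq_mul, mul_one]
    rw [h5, map_smul, ha, h1 k, smul_zero, LinearMap.zero_apply]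

theorem finrank_QH_free (d : ℕ) : Module.Finite ℚ (QH (FreeGroup (Fin d))) ∧
    Module.finrank ℚ (QH (FreeGroup (Fin d))) ≤ d := by
  have hfin : Module.Finite ℚ (QH (FreeGroup (Fin d))) := finite_QH
  refine ⟨hfin, ?_⟩
  let L : QH (FreeGroup (Fin d)) →ₗ[ℚ] (Fin d → ℚ) :=
    { toFun := fun φ i => φ (Additive.ofMul (FreeGroup.of i))
      map_add' := fun _ _ => rfl
      map_smul' := fun _ _ => rfl }
  have hL : Function.Injective L := by
    intro φ ψ h
    have h2 : AddMonoidHom.toMultiplicativeRight φ = AddMonoidHom.toMultiplicativeRight ψ := by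
      apply FreeGroup.ext_hom
      intro i
      exact congrArg Multiplicative.ofAdd (congr_fun h i)
    exact AddMonoidHom.toMultiplicativeRight.injective h2
  calc Module.finrank ℚ (QH (FreeGroup (Fin d))) ≤ Module.finrank ℚ (Fin d → ℚ) :=
        LinearMap.finrank_le_finrank_of_injective hL
    _ = d := by simp

/-- The Betti number bound. -/
theorem betti_le (d : ℕ) (R : Set (FreeGroup (Fin d)))
    (hR : ∀ m, ∃ N, ∀ φ : QH (core d m),
      (∀ r (hr : r ∈ core d m), r ∈ R → φ (Additive.ofMul ⟨r, hr⟩) = 0) →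
        ∀ h : core d m, (h : FreeGroup (Fin d)) ∈
          (⊤ : Subgroup (FreeGroup (Fin d))).lowerCentralSeries N → φ (Additive.ofMul h) = 0)
    (K : Subgroup (PresentedGroup R)) (hK : K.FiniteIndex) :
    Module.rank ℚ (RatAb K) ≤ (d : Cardinal) := by
  have hsurj := PresentedGroup.mk_surjective R
  have hidx : (K.comap (PresentedGroup.mk R)).FiniteIndex :=
    ⟨by rw [Subgroup.index_comap_of_surjective K hsurj]; exact hK.index_ne_zero⟩
  set m := (K.comap (PresentedGroup.mk R)).index with hm
  have hle : core d m ≤ K.comap (PresentedGroup.mk R) := core_le d _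
  obtain ⟨N, hN⟩ := hR m
  have hrange : ∀ f, pull K (core d m) hle f ∈ LinearMap.range (restr (core d m)) := by
    intro f
    apply mem_range_restr (core d m) N
    apply hN
    intro r hr hrR
    rw [pull_apply]
    have h1 : jmap K (core d m) hle ⟨r, hr⟩ = 1 := by
      apply Subtype.ext
      change PresentedGroup.mk R r = 1
      exact PresentedGroup.one_of_mem hrR
    rw [h1, map_one, ofMul_one, TensorProduct.tmul_zero, map_zero]
  obtain ⟨hfin, hrk⟩ := finrank_QH_free d
  let P := (pull K (core d m) hle).codRestrict (LinearMap.range (restr (core d m))) hrange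
  have hP : Function.Injective P := by
    intro a b hab
    exact pull_injective K (core d m) hle (congrArg Subtype.val hab)
  have hfinD : Module.Finite ℚ (Module.Dual ℚ (RatAb K)) := Module.Finite.of_injective P hP
  have hle2 : Module.finrank ℚ (Module.Dual ℚ (RatAb K)) ≤ d := by
    calc _ ≤ Module.finrank ℚ (LinearMap.range (restr (core d m))) :=
          LinearMap.finrank_le_finrank_of_injective hP
      _ ≤ Module.finrank ℚ (QH (FreeGroup (Fin d))) := LinearMap.finrank_range_le _
      _ ≤ d := hrk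
  have hfinV : Module.Finite ℚ (RatAb K) := (Module.finite_dual_iff ℚ).mp hfinD
  rw [Subspace.dual_finrank_eq] at hle2
  rw [← Module.finrank_eq_rank]
  exact_mod_cast hle2

end Betti

end Pool.Agent.W400.GS
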