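import Mathlib

/-!
Rounding of almost homomorphisms `f : G → Perm X` of a finite group to an honest
homomorphism `F : G →* Perm Y` with `X ↪ Y`.
-/

set_option linter.unusedSectionVars false
set_option linter.unusedVariables false

namespace Pool.Agent.W400.Rounding

open Finset Classical

variable {G : Type} [Group G] [Fintype G] {X : Type} [Fintype X]
variable (f : G → Equiv.Perm X)

/-- number of `g` for which the two points of `G × X` have different images -/
noncomputable def dst (w w' : G × X) : ℕ :=
  (univ.filter (fun g : G => f (g * w.1) w.2 ≠ f (g * w'.1) w'.2)).card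

/-- left translation on `G × X` -/
def gm (g : G) (w : G × X) : G × X := (g * w.1, w.2)

lemma dst_self (w : G × X) : dst f w w = 0 := by
  simp [dst]

lemma dst_comm (w w' : G × X) : dst f w w' = dst f w' w := by
  unfold dst
  congr 1
  ext g
  simp only [mem_filter, mem_univ, true_and]
  exact ne_comm

lemma dst_tri (a b c : G × X) : dst f a c ≤ dst f a b + dst f b c := by
  unfold dst
  refine le_trans (card_le_card ?_) (card_union_le _ _)
  intro g hg
  simp only [mem_union, mem_filter, mem_univ, true_and] at hg ⊢
  by_contra hcon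
  push Not at hcon
  exact hg (hcon.1.trans hcon.2)

lemma dst_gm (g : G) (w w' : G × X) : dst f (gm g w) (gm g w') = dst f w w' := by
  unfold dst gm
  refine Finset.card_equiv (Equiv.mulRight g) ?_
  intro a
  simp [mul_assoc]

/-- the ball of radius `|G|/8` -/
noncomputable def BB (w : G × X) : Finset (G × X) :=
  univ.filter (fun w' => 8 * dst f w w' ≤ Fintype.card G)

lemma mem_BB (w w' : G × X) : w' ∈ BB f w ↔ 8 * dst f w w' ≤ Fintype.card G := by
  simp [BB]

/-- translation as an equivalence -/
def gmE (g : G) : (G × X) ≃ (G × X) where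
  toFun := gm g
  invFun := gm g⁻¹
  left_inv w := by simp [gm]
  right_inv w := by simp [gm]

lemma card_BB_gm (g : G) (w : G × X) : (BB f (gm g w)).card = (BB f w).card := by
  symm
  refine Finset.card_equiv (gmE g) ?_
  intro a
  rw [mem_BB, mem_BB]
  change _ ↔ 8 * dst f (gm g w) (gm g a) ≤ _
  rw [dst_gm]

/-- core points -/
def core (w : G × X) : Prop := 3 * Fintype.card G ≤ 4 * (BB f w).card

lemma core_gm (g : G) {w : G × X} (h : core f w) : core f (gm g w) := by
  unfold core at *
  rw [card_BB_gm]
  exact h

lemma fiber (g : G) (x : X) :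
    (univ.filter (fun w : G × X => f (g * w.1) w.2 = x)).card = Fintype.card G := by
  rw [← Finset.card_univ]
  symm
  refine Finset.card_bij (fun h _ => (h, (f (g * h))⁻¹ x)) ?_ ?_ ?_
  · intro h _
    simp
  · intro a _ b _ hab
    exact (Prod.mk.injEq _ _ _ _ ▸ hab).1
  · intro w hw
    refine ⟨w.1, mem_univ _, ?_⟩
    simp only [mem_filter, mem_univ, true_and] at hw
    rw [← hw]
    simp

lemma card_pos' : 0 < Fintype.card G := Fintype.card_pos

/-- sum over `g` of the number of points of the ball agreeing with the centre -/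
lemma sum_agree (w : G × X) :
    7 * Fintype.card G * (BB f w).card ≤
      8 * ∑ g : G, ((BB f w).filter
        (fun w'' => f (g * w''.1) w''.2 = f (g * w.1) w.2)).card := by
  have h1 : ∑ g : G, ((BB f w).filter
        (fun w'' => f (g * w''.1) w''.2 = f (g * w.1) w.2)).card
      = ∑ w'' ∈ BB f w, (univ.filter
        (fun g : G => f (g * w''.1) w''.2 = f (g * w.1) w.2)).card := by
    simp only [Finset.card_filter]
    rw [Finset.sum_comm]
  rw [h1, Finset.mul_sum]
  have h2 : ∀ w'' ∈ BB f w, 7 * Fintype.card G ≤ 8 * (univ.filter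
        (fun g : G => f (g * w''.1) w''.2 = f (g * w.1) w.2)).card := by
    intro w'' hw''
    rw [mem_BB, dst_comm] at hw''
    have h3 := Finset.card_filter_add_card_filter_not (s := (univ : Finset G))
      (fun g : G => f (g * w''.1) w''.2 = f (g * w.1) w.2)
    unfold dst at hw''
    rw [Finset.card_univ] at h3
    have h4 : (univ.filter (fun g : G => ¬ (f (g * w''.1) w''.2 = f (g * w.1) w.2))).card
      = (univ.filter (fun g : G => f (g * w''.1) w''.2 ≠ f (g * w.1) w.2)).card := rfl
    omega
  calc 7 * Fintype.card G * (BB f w).card = ∑ w'' ∈ BB f w, 7 * Fintype.card G := by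
        rw [Finset.sum_const, smul_eq_mul, mul_comm]
    _ ≤ _ := Finset.sum_le_sum h2

/-- the dichotomy -/
lemma dicho {w w' : G × X} (hw : core f w) (hw' : core f w')
    (hd : Disjoint (BB f w) (BB f w')) : 5 * Fintype.card G ≤ 8 * dst f w w' := by
  have hM : 0 < Fintype.card G := Fintype.card_pos
  unfold core at hw hw'
  set M := Fintype.card G with hMdef
  set m := min (BB f w).card M with hm
  set m' := min (BB f w').card M with hm'
  have s1 := sum_agree f w
  have s2 := sum_agree f w'
  set a : G → ℕ := fun g => ((BB f w).filter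
        (fun w'' => f (g * w''.1) w''.2 = f (g * w.1) w.2)).card with ha
  set b : G → ℕ := fun g => ((BB f w').filter
        (fun w'' => f (g * w''.1) w''.2 = f (g * w'.1) w'.2)).card with hb
  have key : ∀ g : G, a g + b g ≤ if f (g * w.1) w.2 ≠ f (g * w'.1) w'.2 then m + m' else M := by
    intro g
    have ha1 : a g ≤ (BB f w).card := Finset.card_filter_le _ _
    have hb1 : b g ≤ (BB f w').card := Finset.card_filter_le _ _
    have ha2 : a g ≤ M := by
      rw [hMdef, ← fiber f g (f (g * w.1) w.2)]
      exact Finset.card_le_card (Finset.filter_subset_filter _ (Finset.subset_univ _))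
    have hb2 : b g ≤ M := by
      rw [hMdef, ← fiber f g (f (g * w'.1) w'.2)]
      exact Finset.card_le_card (Finset.filter_subset_filter _ (Finset.subset_univ _))
    split_ifs with hne
    · have : a g ≤ m := le_min ha1 ha2
      have : b g ≤ m' := le_min hb1 hb2
      omega
    · push Not at hne
      rw [hMdef, ← fiber f g (f (g * w.1) w.2), ha, hb]
      simp only
      rw [← hne, ← Finset.card_union_of_disjoint]
      · refine Finset.card_le_card ?_
        intro z hz
        simp only [mem_union, mem_filter, mem_univ, true_and] at hz ⊢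
        rcases hz with hz | hz
        · exact hz.2
        · exact hz.2
      · exact Finset.disjoint_filter_filter hd
  have hsum : ∑ g : G, a g + ∑ g : G, b g ≤ dst f w w' * (m + m') + (M - dst f w w') * M := by
    rw [← Finset.sum_add_distrib]
    refine le_trans (Finset.sum_le_sum (fun g _ => key g)) ?_
    rw [Finset.sum_ite, Finset.sum_const, Finset.sum_const, smul_eq_mul, smul_eq_mul]
    have h3 := Finset.card_filter_add_card_filter_not (s := (univ : Finset G))
      (fun g : G => f (g * w.1) w.2 ≠ f (g * w'.1) w'.2)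
    rw [Finset.card_univ] at h3
    have h4 : (univ.filter (fun g : G => f (g * w.1) w.2 ≠ f (g * w'.1) w'.2)).card
      = dst f w w' := rfl
    rw [h4] at h3 ⊢
    have h5 : (univ.filter (fun g : G => ¬ (f (g * w.1) w.2 ≠ f (g * w'.1) w'.2))).card
      = M - dst f w w' := by omega
    rw [h5]
  have hdM : dst f w w' ≤ M := by
    unfold dst
    rw [hMdef, ← Finset.card_univ]
    exact Finset.card_filter_le _ _
  have hmle : m ≤ (BB f w).card := min_le_left _ _
  have hmle' : m' ≤ (BB f w').card := min_le_left _ _
  have hm3 : 3 * M ≤ 4 * m := by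
    rw [hm]
    rcases le_total (BB f w).card M with h | h
    · rw [min_eq_left h]; exact hw
    · rw [min_eq_right h]; omega
  have hm3' : 3 * M ≤ 4 * m' := by
    rw [hm']
    rcases le_total (BB f w').card M with h | h
    · rw [min_eq_left h]; exact hw'
    · rw [min_eq_right h]; omega
  by_contra hcon
  push Not at hcon
  obtain ⟨e, he⟩ := Nat.exists_eq_add_of_le hdM
  have he' : M - dst f w w' = e := by omega
  rw [he'] at hsum
  have t1 : 7 * M * m ≤ 7 * M * (BB f w).card := Nat.mul_le_mul_left _ hmle
  have t2 : 7 * M * m' ≤ 7 * M * (BB f w').card := Nat.mul_le_mul_left _ hmle'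
  set D := dst f w w' with hD
  have t3 : 7 * M * (m + m') ≤ 8 * (D * (m + m') + e * M) := by
    calc 7 * M * (m + m') = 7 * M * m + 7 * M * m' := by ring
      _ ≤ 8 * (∑ g : G, a g) + 8 * (∑ g : G, b g) := by
          have s1' : 7 * M * (BB f w).card ≤ 8 * ∑ g : G, a g := s1
          have s2' : 7 * M * (BB f w').card ≤ 8 * ∑ g : G, b g := s2
          omega
      _ = 8 * (∑ g : G, a g + ∑ g : G, b g) := by ring
      _ ≤ _ := Nat.mul_le_mul_left _ hsum
  zify at t3 he hm3 hm3' hcon hM
  nlinarith [mul_nonneg (sub_nonneg.2 hm3) (sub_nonneg.2 hcon.le),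
    mul_nonneg (sub_nonneg.2 hm3') (sub_nonneg.2 hcon.le), mul_pos hM hM]

lemma rel_of_common {w w' w'' : G × X} (h : w'' ∈ BB f w) (h' : w'' ∈ BB f w') :
    4 * dst f w w' ≤ Fintype.card G := by
  rw [mem_BB] at h h'
  have h1 := dst_tri f w w'' w'
  rw [dst_comm f w'' w'] at h1
  omega

lemma rel_trans {a b c : G × X} (ha : core f a) (hc : core f c)
    (h1 : 4 * dst f a b ≤ Fintype.card G) (h2 : 4 * dst f b c ≤ Fintype.card G) :
    4 * dst f a c ≤ Fintype.card G := by
  have h3 := dst_tri f a b c
  have hM : 0 < Fintype.card G := Fintype.card_pos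
  by_cases hd : Disjoint (BB f a) (BB f c)
  · have := dicho f ha hc hd
    omega
  · rw [Finset.not_disjoint_iff] at hd
    obtain ⟨w, hw1, hw2⟩ := hd
    exact rel_of_common f hw1 hw2

/-- the equivalence relation on the core -/
def coreSetoid : Setoid {w : G × X // core f w} where
  r a b := 4 * dst f a.1 b.1 ≤ Fintype.card G
  iseqv := by
    refine ⟨?_, ?_, ?_⟩
    · intro a
      rw [dst_self]
      omega
    · intro a b h
      rw [dst_comm]
      exact h
    · intro a b c h1 h2
      exact rel_trans f a.2 c.2 h1 h2

/-- the quotient -/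
def Yq : Type := Quotient (coreSetoid f)

noncomputable instance : Fintype (Yq f) :=
  @Fintype.ofFinite _ (@Quotient.finite _ _ (coreSetoid f))

/-- class of a core point -/
def cl (w : G × X) (h : core f w) : Yq f := Quotient.mk (coreSetoid f) ⟨w, h⟩

lemma cl_eq {w w' : G × X} (h : core f w) (h' : core f w') :
    cl f w h = cl f w' h' ↔ 4 * dst f w w' ≤ Fintype.card G := by
  exact @Quotient.eq _ (coreSetoid f) ⟨w, h⟩ ⟨w', h'⟩

instance : MulAction G (Yq f) where
  smul g := Quotient.map' (s₁ := coreSetoid f) (s₂ := coreSetoid f)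
    (fun w => ⟨gm g w.1, core_gm f g w.2⟩) (by
      intro a b h
      change 4 * dst f (gm g a.1) (gm g b.1) ≤ _
      rw [dst_gm]
      exact h)
  one_smul := by
    intro y
    induction y using Quotient.inductionOn' with
    | h a =>
      change Quotient.mk (coreSetoid f) _ = Quotient.mk (coreSetoid f) _
      congr 1
      apply Subtype.ext
      simp [gm]
  mul_smul := by
    intro g h y
    induction y using Quotient.inductionOn' with
    | h a =>
      change Quotient.mk (coreSetoid f) _ = Quotient.mk (coreSetoid f) _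
      congr 1
      apply Subtype.ext
      simp [gm, mul_assoc]

lemma smul_cl (g : G) (w : G × X) (h : core f w) :
    g • cl f w h = cl f (gm g w) (core_gm f g h) := rfl

/-- the defect at a point -/
noncomputable def ee (w : G × X) : ℕ := dst f w (1, f w.1 w.2)

/-- total defect -/
noncomputable def EE : ℕ := ∑ w : G × X, ee f w

/-- bad points -/
noncomputable def Bad : Finset (G × X) := univ.filter (fun w => Fintype.card G < 8 * ee f w)

/-- number of bad points over `x` -/
noncomputable def bb (x : X) : ℕ := ((Bad f).filter (fun w => f w.1 w.2 = x)).card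

/-- the good points of `X` -/
def X0 (x : X) : Prop := 4 * bb f x ≤ Fintype.card G

lemma fiber1 (x : X) :
    (univ.filter (fun w : G × X => f w.1 w.2 = x)).card = Fintype.card G := by
  have := fiber f 1 x
  simpa using this

lemma core_of_X0 {x : X} (h : X0 f x) : core f (1, x) := by
  unfold core
  unfold X0 at h
  have h1 : (univ.filter (fun w : G × X => f w.1 w.2 = x)) \
      ((Bad f).filter (fun w => f w.1 w.2 = x)) ⊆ BB f (1, x) := by
    intro w hw
    simp only [mem_sdiff, mem_filter, mem_univ, true_and, not_and, Bad] at hw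
    rw [mem_BB, dst_comm]
    by_contra hcon
    push Not at hcon
    apply hw.2 _ hw.1
    unfold ee
    rw [hw.1]
    exact hcon
  have h2 := Finset.card_le_card h1
  have h3 := Finset.le_card_sdiff ((Bad f).filter (fun w => f w.1 w.2 = x))
    (univ.filter (fun w : G × X => f w.1 w.2 = x))
  rw [fiber1] at h3
  unfold bb at h
  omega

lemma sum_bb : ∑ x : X, bb f x = (Bad f).card := by
  unfold bb
  rw [Finset.card_eq_sum_card_fiberwise (f := fun w : G × X => f w.1 w.2) (t := univ)
    (s := Bad f) (fun _ _ => mem_coe.2 (mem_univ _))]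

/-- bad points of `X` -/
noncomputable def XB : Finset X := univ.filter (fun x => ¬ X0 f x)

lemma card_XB : (XB f).card * Fintype.card G ≤ 4 * (Bad f).card := by
  rw [← sum_bb, Finset.mul_sum]
  calc (XB f).card * Fintype.card G = ∑ x ∈ XB f, Fintype.card G := by
        rw [Finset.sum_const, smul_eq_mul]
    _ ≤ ∑ x ∈ XB f, 4 * bb f x := by
        refine Finset.sum_le_sum ?_
        intro x hx
        simp only [XB, X0, mem_filter, mem_univ, true_and, not_le] at hx
        exact hx.le
    _ ≤ _ := Finset.sum_le_sum_of_subset (Finset.subset_univ _)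

lemma card_Bad : (Bad f).card * Fintype.card G ≤ 8 * EE f := by
  unfold EE
  rw [Finset.mul_sum]
  calc (Bad f).card * Fintype.card G = ∑ w ∈ Bad f, Fintype.card G := by
        rw [Finset.sum_const, smul_eq_mul]
    _ ≤ ∑ w ∈ Bad f, 8 * ee f w := by
        refine Finset.sum_le_sum ?_
        intro x hx
        simp only [Bad, mem_filter, mem_univ, true_and] at hx
        exact hx.le
    _ ≤ _ := Finset.sum_le_sum_of_subset (Finset.subset_univ _)

/-- the set of points which may lie in balls of extra classes -/
noncomputable def WB : Finset (G × X) :=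
  univ.filter (fun w => Fintype.card G < 8 * ee f w ∨ ¬ X0 f (f w.1 w.2))

lemma card_WB : (WB f).card ≤ 5 * (Bad f).card := by
  have h1 : WB f ⊆ Bad f ∪ univ.filter (fun w : G × X => f w.1 w.2 ∈ XB f) := by
    intro w hw
    simp only [WB, Bad, XB, mem_filter, mem_univ, true_and, mem_union] at hw ⊢
    exact hw
  have h2 : (univ.filter (fun w : G × X => f w.1 w.2 ∈ XB f)).card
      = (XB f).card * Fintype.card G := by
    rw [Finset.card_eq_sum_card_fiberwise (f := fun w : G × X => f w.1 w.2) (t := XB f)]
    · rw [← smul_eq_mul, ← Finset.sum_const]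
      refine Finset.sum_congr rfl ?_
      intro x hx
      rw [← fiber1 f x]
      congr 1
      ext w
      simp only [mem_filter, mem_univ, true_and]
      constructor
      · intro h; exact h.2
      · intro h; exact ⟨h ▸ hx, h⟩
    · intro w hw
      simpa using hw
  have h3 := card_XB f
  calc (WB f).card ≤ _ := Finset.card_le_card h1
    _ ≤ _ := Finset.card_union_le _ _
    _ ≤ (Bad f).card + 4 * (Bad f).card := by rw [h2]; omega
    _ = _ := by ring

/-- the inclusion of `X` -/
noncomputable def jj (x : X) : Yq f ⊕ {x : X // ¬ X0 f x} :=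
  if h : X0 f x then Sum.inl (cl f (1, x) (core_of_X0 f h)) else Sum.inr ⟨x, h⟩

lemma jj_inj : Function.Injective (jj f) := by
  intro x y hxy
  unfold jj at hxy
  by_cases hx : X0 f x
  · by_cases hy : X0 f y
    · rw [dif_pos hx, dif_pos hy] at hxy
      have h1 := Sum.inl_injective hxy
      rw [cl_eq] at h1
      by_contra hne
      have h2 : dst f (1, x) (1, y) = Fintype.card G := by
        unfold dst
        rw [Finset.filter_true_of_mem, Finset.card_univ]
        intro g _
        simp [hne]
      have hM : 0 < Fintype.card G := Fintype.card_pos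
      omega
    · rw [dif_pos hx, dif_neg hy] at hxy
      exact absurd hxy (by simp)
  · by_cases hy : X0 f y
    · rw [dif_neg hx, dif_pos hy] at hxy
      exact absurd hxy (by simp)
    · rw [dif_neg hx, dif_neg hy] at hxy
      have h1 := Sum.inr_injective hxy
      exact congrArg Subtype.val h1

/-- the extra classes -/
noncomputable def EX : Finset (Yq f) := univ.filter (fun y => ∀ x, jj f x ≠ Sum.inl y)

lemma card_EX : 3 * Fintype.card G * (EX f).card ≤ 4 * (WB f).card := by
  let rp : Yq f → G × X := fun y => (Quotient.out (s := coreSetoid f) y).1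
  have hrp : ∀ y, core f (rp y) := fun y => (Quotient.out (s := coreSetoid f) y).2
  have hcl : ∀ y, cl f (rp y) (hrp y) = y := fun y => Quotient.out_eq (s := coreSetoid f) y
  have hdis : ∀ y ∈ EX f, ∀ y' ∈ EX f, y ≠ y' → Disjoint (BB f (rp y)) (BB f (rp y')) := by
    intro y _ y' _ hne
    by_contra hnd
    rw [Finset.not_disjoint_iff] at hnd
    obtain ⟨w, h1, h2⟩ := hnd
    apply hne
    rw [← hcl y, ← hcl y', cl_eq]
    exact rel_of_common f h1 h2
  have hsub : (EX f).biUnion (fun y => BB f (rp y)) ⊆ WB f := by
    intro w hw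
    rw [Finset.mem_biUnion] at hw
    obtain ⟨y, hy, hw⟩ := hw
    simp only [WB, mem_filter, mem_univ, true_and]
    by_contra hcon
    push Not at hcon
    simp only [EX, mem_filter, mem_univ, true_and] at hy
    apply hy (f w.1 w.2)
    unfold jj
    rw [dif_pos hcon.2]
    congr 1
    rw [← hcl y, cl_eq, dst_comm]
    refine rel_of_common f hw ?_
    rw [mem_BB, dst_comm]
    exact hcon.1
  have h1 := Finset.card_le_card hsub
  rw [Finset.card_biUnion hdis] at h1
  calc 3 * Fintype.card G * (EX f).card = ∑ y ∈ EX f, 3 * Fintype.card G := by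
        rw [Finset.sum_const, smul_eq_mul, mul_comm]
    _ ≤ ∑ y ∈ EX f, 4 * (BB f (rp y)).card := by
        refine Finset.sum_le_sum ?_
        intro y _
        exact hrp y
    _ = 4 * ∑ y ∈ EX f, (BB f (rp y)).card := by rw [Finset.mul_sum]
    _ ≤ _ := Nat.mul_le_mul_left _ h1

/-- the honest homomorphism -/
noncomputable def FF : G →* Equiv.Perm (Yq f ⊕ {x : X // ¬ X0 f x}) :=
  (Equiv.Perm.sumCongrHom _ _).comp ((MulAction.toPermHom G (Yq f)).prod 1)

lemma FF_inl (g : G) (y : Yq f) : FF f g (Sum.inl y) = Sum.inl (g • y) := rfl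

lemma FF_jj {g : G} {x : X} (hx : X0 f x) (hgx : X0 f (f g x))
    (he : 4 * ee f (g, x) ≤ Fintype.card G) : FF f g (jj f x) = jj f (f g x) := by
  unfold jj
  rw [dif_pos hx, dif_pos hgx, FF_inl, smul_cl]
  congr 1
  rw [cl_eq]
  have : gm g ((1 : G), x) = (g, x) := by simp [gm]
  rw [this]
  exact he

lemma card_fail (g : G) :
    Fintype.card G * (univ.filter (fun x : X => FF f g (jj f x) ≠ jj f (f g x))).card
      ≤ 2 * ((XB f).card * Fintype.card G) + 4 * ∑ x : X, ee f (g, x) := by
  have h1 : univ.filter (fun x : X => FF f g (jj f x) ≠ jj f (f g x)) ⊆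
      (XB f ∪ univ.filter (fun x => f g x ∈ XB f)) ∪
        univ.filter (fun x => Fintype.card G < 4 * ee f (g, x)) := by
    intro x hx
    simp only [mem_filter, mem_univ, true_and, mem_union, XB] at hx ⊢
    by_contra hcon
    push Not at hcon
    exact hx (FF_jj f hcon.1.1 hcon.1.2 hcon.2)
  have h2 : (univ.filter (fun x => f g x ∈ XB f)).card = (XB f).card := by
    refine Finset.card_equiv (f g) ?_
    intro x
    simp
  have h3 : (univ.filter (fun x => Fintype.card G < 4 * ee f (g, x))).card * Fintype.card G
      ≤ 4 * ∑ x : X, ee f (g, x) := by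
    rw [Finset.mul_sum]
    calc _ = ∑ x ∈ univ.filter (fun x => Fintype.card G < 4 * ee f (g, x)), Fintype.card G := by
          rw [Finset.sum_const, smul_eq_mul]
      _ ≤ ∑ x ∈ univ.filter (fun x => Fintype.card G < 4 * ee f (g, x)), 4 * ee f (g, x) := by
          refine Finset.sum_le_sum ?_
          intro x hx
          simp only [mem_filter, mem_univ, true_and] at hx
          exact hx.le
      _ ≤ _ := Finset.sum_le_sum_of_subset (Finset.subset_univ _)
  have h4 := Finset.card_le_card h1
  have h5 := Finset.card_union_le (XB f ∪ univ.filter (fun x => f g x ∈ XB f))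
        (univ.filter (fun x => Fintype.card G < 4 * ee f (g, x)))
  have h6 := Finset.card_union_le (XB f) (univ.filter (fun x => f g x ∈ XB f))
  rw [h2] at h6
  have h7 : (univ.filter (fun x : X => FF f g (jj f x) ≠ jj f (f g x))).card ≤
    2 * (XB f).card + (univ.filter (fun x => Fintype.card G < 4 * ee f (g, x))).card := by
    omega
  calc _ ≤ Fintype.card G * (2 * (XB f).card +
      (univ.filter (fun x => Fintype.card G < 4 * ee f (g, x))).card) := Nat.mul_le_mul_left _ h7
    _ = 2 * ((XB f).card * Fintype.card G) +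
      (univ.filter (fun x => Fintype.card G < 4 * ee f (g, x))).card * Fintype.card G := by ring
    _ ≤ _ := Nat.add_le_add_left h3 _

lemma card_Y : Fintype.card (Yq f ⊕ {x : X // ¬ X0 f x}) ≤ Fintype.card X + (EX f).card := by
  have h1 : (univ : Finset (Yq f ⊕ {x : X // ¬ X0 f x})) ⊆
      univ.image (jj f) ∪ (EX f).image Sum.inl := by
    intro y _
    simp only [mem_union, mem_image, mem_univ, true_and]
    by_cases h : ∃ x, jj f x = y
    · exact Or.inl h
    · right
      rcases y with y | x
      · refine ⟨y, ?_, rfl⟩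
        simp only [EX, mem_filter, mem_univ, true_and]
        intro x hx
        exact h ⟨x, hx⟩
      · exfalso
        apply h
        refine ⟨x.1, ?_⟩
        unfold jj
        rw [dif_neg x.2]
  have h2 := Finset.card_le_card h1
  rw [Finset.card_univ] at h2
  refine h2.trans ((Finset.card_union_le _ _).trans ?_)
  have h3 : (univ.image (jj f)).card ≤ Fintype.card X := by
    rw [← Finset.card_univ (α := X)]
    exact Finset.card_image_le
  have h4 : ((EX f).image (Sum.inl : _ → Yq f ⊕ {x : X // ¬ X0 f x})).card ≤ (EX f).card :=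
    Finset.card_image_le
  omega

/-- Hamming distance on permutations -/
noncomputable def hd {X : Type} [Fintype X] (s t : Equiv.Perm X) : ℕ :=
  (univ.filter (fun x => s x ≠ t x)).card

lemma hd_right {X : Type} [Fintype X] (a b c : Equiv.Perm X) : hd (a * c) (b * c) = hd a b := by
  unfold hd
  refine Finset.card_equiv c ?_
  intro x
  simp only [mem_filter, mem_univ, true_and, Equiv.Perm.mul_apply]

lemma hd_le {X : Type} [Fintype X] (a b : Equiv.Perm X) : hd a b ≤ Fintype.card X := by
  unfold hd
  rw [← Finset.card_univ]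
  exact Finset.card_filter_le _ _

lemma sum_ee (g : G) : ∑ x : X, ee f (g, x) = ∑ h : G, hd (f (h * g)) (f h * f g) := by
  have h1 : ∀ x : X, ee f (g, x) = ∑ h : G, if f (h * g) x ≠ (f h * f g) x then 1 else 0 := by
    intro x
    unfold ee dst
    rw [Finset.card_filter]
    refine Finset.sum_congr rfl ?_
    intro h _
    simp only [mul_one, Equiv.Perm.mul_apply]
    congr
  have h2 : ∀ h : G, hd (f (h * g)) (f h * f g)
      = ∑ x : X, if f (h * g) x ≠ (f h * f g) x then 1 else 0 := by
    intro h
    unfold hd
    rw [Finset.card_filter]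
  rw [Finset.sum_congr rfl (fun x _ => h1 x), Finset.sum_congr rfl (fun h _ => h2 h),
    Finset.sum_comm]

lemma EE_eq : EE f = ∑ g : G, ∑ h : G, hd (f (h * g)) (f h * f g) := by
  unfold EE
  rw [Fintype.sum_prod_type]
  exact Finset.sum_congr rfl (fun g _ => sum_ee f g)

/-- The rounding theorem. -/
theorem rounding (f : G → Equiv.Perm X) :
    ∃ (Y : Type) (_ : Fintype Y) (F : G →* Equiv.Perm Y) (j : X → Y),
      Function.Injective j ∧
      3 * (Fintype.card G) ^ 2 * (Fintype.card Y - Fintype.card X)
        ≤ 160 * ∑ g : G, ∑ h : G, hd (f (h * g)) (f h * f g) ∧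
      ∀ g : G, (Fintype.card G) ^ 2 * (univ.filter (fun x : X => F g (j x) ≠ j (f g x))).card
        ≤ 64 * (∑ g : G, ∑ h : G, hd (f (h * g)) (f h * f g)) +
          4 * Fintype.card G * ∑ h : G, hd (f (h * g)) (f h * f g) := by
  refine ⟨Yq f ⊕ {x : X // ¬ X0 f x}, inferInstance, FF f, jj f, jj_inj f, ?_, ?_⟩
  · rw [← EE_eq]
    have h1 := card_Y f
    have h2 := card_EX f
    have h3 := card_WB f
    have h4 := card_Bad f
    have h5 : Fintype.card (Yq f ⊕ {x : X // ¬ X0 f x}) - Fintype.card X ≤ (EX f).card := by
      omega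
    calc _ ≤ 3 * (Fintype.card G) ^ 2 * (EX f).card := Nat.mul_le_mul_left _ h5
      _ = Fintype.card G * (3 * Fintype.card G * (EX f).card) := by ring
      _ ≤ Fintype.card G * (4 * (5 * (Bad f).card)) :=
          Nat.mul_le_mul_left _ (h2.trans (Nat.mul_le_mul_left _ h3))
      _ = 20 * ((Bad f).card * Fintype.card G) := by ring
      _ ≤ 20 * (8 * EE f) := Nat.mul_le_mul_left _ h4
      _ = _ := by ring
  · intro g
    rw [← EE_eq, ← sum_ee]
    have h1 := card_fail f g
    have h2 := card_XB f
    have h4 := card_Bad f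
    calc _ = Fintype.card G * (Fintype.card G *
          (univ.filter (fun x : X => FF f g (jj f x) ≠ jj f (f g x))).card) := by
            rw [pow_two, mul_assoc]; congr!
      _ ≤ Fintype.card G * (2 * ((XB f).card * Fintype.card G) + 4 * ∑ x : X, ee f (g, x)) :=
          Nat.mul_le_mul_left _ h1
      _ ≤ Fintype.card G * (2 * (4 * (Bad f).card) + 4 * ∑ x : X, ee f (g, x)) := by
          refine Nat.mul_le_mul_left _ (Nat.add_le_add_right (Nat.mul_le_mul_left _ h2) _)
      _ = 8 * ((Bad f).card * Fintype.card G) + 4 * Fintype.card G * ∑ x : X, ee f (g, x) := by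
          ring
      _ ≤ 8 * (8 * EE f) + 4 * Fintype.card G * ∑ x : X, ee f (g, x) :=
          Nat.add_le_add_right (Nat.mul_le_mul_left _ h4) _
      _ = _ := by ring

end Pool.Agent.W400.Rounding
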