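import Mathlib

/-!
The presentation of `V × F_2^k` (V a finite abelian group given by its multiplication table) and
normal form computations with respect to a bi-invariant distance.
-/

set_option linter.unusedSectionVars false
set_option linter.unusedVariables false

namespace Pool.Agent.W400.StabWords

open Finset

variable {V : Type} [AddCommGroup V] [Fintype V] [DecidableEq V] {k : ℕ}

/-- index set of the relators -/
abbrev Idx (V : Type) (k : ℕ) : Type := (V × V) ⊕ ((Fin k × Fin k) ⊕ (Fin k × V))

/-- generators -/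
abbrev Gen (V : Type) (k : ℕ) : Type := V ⊕ Fin k

/-- the relators as words -/
def word : Idx V k → List (Gen V k × Bool)
  | Sum.inl (v, w) =>
      if v = 0 then
        (if w = 0 then [(Sum.inl 0, true)]
          else [(Sum.inl w, false), (Sum.inl 0, true), (Sum.inl w, true)])
      else [(Sum.inl v, true), (Sum.inl w, true), (Sum.inl (v + w), false)]
  | Sum.inr (Sum.inl (i, j)) =>
      if i = j then [(Sum.inr i, true), (Sum.inr i, true)]
      else [(Sum.inr i, true), (Sum.inr j, true), (Sum.inr i, false), (Sum.inr j, false)]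
  | Sum.inr (Sum.inr (i, v)) =>
      [(Sum.inr i, true), (Sum.inl v, true), (Sum.inr i, false), (Sum.inl v, false)]

lemma word_reduced (t : Idx V k) : FreeGroup.IsReduced (word t) := by
  rcases t with ⟨v, w⟩ | ⟨i, j⟩ | ⟨i, v⟩
  · unfold word
    by_cases hv : v = 0
    · by_cases hw : w = 0
      · simp [hv, hw]
      · simp [hv, hw, Ne.symm hw]
    · simp [hv]
  · unfold word
    by_cases hij : i = j
    · simp [hij]
    · simp [hij, Ne.symm hij]
  · simp [word]

lemma word_inj : Function.Injective (word : Idx V k → _) := by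
  intro s t h
  rcases s with ⟨v, w⟩ | ⟨i, j⟩ | ⟨i, v⟩ <;> rcases t with ⟨v', w'⟩ | ⟨i', j'⟩ | ⟨i', v'⟩ <;>
    simp only [word] at h
  · by_cases h1 : v = 0 <;> by_cases h2 : w = 0 <;> by_cases h3 : v' = 0 <;> by_cases h4 : w' = 0 <;>
      simp_all
  · by_cases h1 : v = 0 <;> by_cases h2 : w = 0 <;> by_cases h3 : i' = j' <;> simp_all
  · by_cases h1 : v = 0 <;> by_cases h2 : w = 0 <;> simp_all
  · by_cases h1 : v' = 0 <;> by_cases h2 : w' = 0 <;> by_cases h3 : i = j <;> simp_all
  · by_cases h1 : i = j <;> by_cases h3 : i' = j' <;> simp_all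
  · by_cases h1 : i = j <;> simp_all
  · by_cases h1 : v' = 0 <;> by_cases h2 : w' = 0 <;> simp_all
  · by_cases h1 : i' = j' <;> simp_all
  · simp_all

/-- the relators -/
def rel (t : Idx V k) : FreeGroup (Gen V k) := FreeGroup.mk (word t)

lemma rel_inj : Function.Injective (rel : Idx V k → _) := by
  intro s t h
  apply word_inj
  have h1 := congrArg FreeGroup.toWord h
  unfold rel at h1
  rw [FreeGroup.toWord_mk, FreeGroup.toWord_mk, (word_reduced s).reduce_eq,
    (word_reduced t).reduce_eq] at h1
  exact h1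

lemma norm_rel (t : Idx V k) : (rel t).norm ≤ 4 := by
  refine FreeGroup.norm_mk_le.trans ?_
  rcases t with ⟨v, w⟩ | ⟨i, j⟩ | ⟨i, v⟩ <;> simp only [word]
  · split_ifs <;> simp
  · split_ifs <;> simp
  · simp

/-- a bi-invariant distance with natural number values -/
structure BiInv {H : Type} [Group H] (d : H → H → ℕ) : Prop where
  self : ∀ a, d a a = 0
  symm : ∀ a b, d a b = d b a
  tri : ∀ a b c, d a c ≤ d a b + d b c
  left : ∀ a b c, d (c * a) (c * b) = d a b
  right : ∀ a b c, d (a * c) (b * c) = d a b

variable {H : Type} [Group H] {d : H → H → ℕ} (hd : BiInv d)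
include hd

lemma d_mul (a b a' b' : H) : d (a * b) (a' * b') ≤ d a a' + d b b' := by
  have h1 := hd.tri (a * b) (a' * b) (a' * b')
  rw [hd.right, hd.left] at h1
  exact h1

lemma d_tri' {a b c : H} {m n : ℕ} (h1 : d a b ≤ m) (h2 : d b c ≤ n) : d a c ≤ m + n :=
  (hd.tri a b c).trans (Nat.add_le_add h1 h2)

lemma d_inv (a b : H) : d (a * b⁻¹) 1 = d a b := by
  have := hd.right a b b⁻¹
  rw [mul_inv_cancel] at this
  exact this

omit hd in
/-- `y^t` for `t ∈ ZMod 2` -/
def pw (y : H) (t : ZMod 2) : H := if t = 0 then 1 else y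

lemma pw_mul (y : H) (s t : ZMod 2) : d (pw y s * pw y t) (pw y (s + t)) ≤ d (y * y) 1 := by
  unfold pw
  have hs : s = 0 ∨ s = 1 := by revert s; decide
  have ht : t = 0 ∨ t = 1 := by revert t; decide
  have h11 : (1 : ZMod 2) + 1 = 0 := by decide
  rcases hs with rfl | rfl <;> rcases ht with rfl | rfl
  · simp [hd.self]
  · simp [hd.self]
  · simp [hd.self]
  · simp [h11]

lemma pw_comm (y z : H) (s : ZMod 2) : d (pw y s * z) (z * pw y s) ≤ d (y * z) (z * y) := by
  unfold pw
  split_ifs
  · simp [hd.self]
  · exact le_rfl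

omit hd in
/-- ordered product -/
def prodN : (k : ℕ) → (Fin k → H) → (Fin k → ZMod 2) → H
  | 0, _, _ => 1
  | k + 1, x, u => prodN k (fun i => x i.castSucc) (fun i => u i.castSucc) *
      pw (x (Fin.last k)) (u (Fin.last k))

omit hd in
lemma prodN_zero (k : ℕ) (x : Fin k → H) : prodN k x 0 = 1 := by
  induction k with
  | zero => rfl
  | succ k ih =>
    unfold prodN
    have : (fun i : Fin k => (0 : Fin (k + 1) → ZMod 2) i.castSucc) = 0 := rfl
    rw [this, ih]
    simp [pw]

omit hd in
lemma prodN_single (k : ℕ) (x : Fin k → H) (i : Fin k) : prodN k x (Pi.single i 1) = x i := by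
  induction k with
  | zero => exact i.elim0
  | succ k ih =>
    unfold prodN
    induction i using Fin.lastCases with
    | last =>
      have : (fun i : Fin k => (Pi.single (Fin.last k) 1 : Fin (k + 1) → ZMod 2) i.castSucc)
          = 0 := by
        funext j
        simp [(Fin.castSucc_lt_last j).ne]
      rw [this, prodN_zero]
      simp [pw]
    | cast i =>
      have : (fun j : Fin k => (Pi.single i.castSucc 1 : Fin (k + 1) → ZMod 2) j.castSucc)
          = Pi.single i 1 := by
        funext j
        simp [Pi.single_apply]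
      rw [this, ih]
      have h2 : (Pi.single i.castSucc 1 : Fin (k + 1) → ZMod 2) (Fin.last k) = 0 := by
        rw [Pi.single_apply, if_neg (Fin.castSucc_lt_last i).ne']
      rw [h2]
      simp [pw]

lemma prodN_comm (k : ℕ) (x : Fin k → H) (u : Fin k → ZMod 2) (z : H) :
    d (prodN k x u * z) (z * prodN k x u) ≤ ∑ i, d (x i * z) (z * x i) := by
  induction k with
  | zero => simp [prodN, hd.self]
  | succ k ih =>
    rw [Fin.sum_univ_castSucc]
    unfold prodN
    set P := prodN k (fun i => x i.castSucc) (fun i => u i.castSucc) with hP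
    set q := pw (x (Fin.last k)) (u (Fin.last k)) with hq
    have h1 : d (P * q * z) (P * (z * q)) ≤ d (x (Fin.last k) * z) (z * x (Fin.last k)) := by
      rw [mul_assoc, hd.left]
      exact pw_comm hd _ _ _
    have h2 : d (P * (z * q)) (z * (P * q)) ≤
        ∑ i : Fin k, d (x i.castSucc * z) (z * x i.castSucc) := by
      rw [← mul_assoc, ← mul_assoc, hd.right]
      exact ih (fun i => x i.castSucc) (fun i => u i.castSucc)
    have h3 := d_tri' hd h1 h2
    omega

lemma prodN_comm' (k : ℕ) (x : Fin k → H) (u : Fin k → ZMod 2) (z : H) :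
    d (z * prodN k x u) (prodN k x u * z) ≤ ∑ i, d (z * x i) (x i * z) := by
  induction k with
  | zero => simp [prodN, hd.self]
  | succ k ih =>
    rw [Fin.sum_univ_castSucc]
    unfold prodN
    set P := prodN k (fun i => x i.castSucc) (fun i => u i.castSucc) with hP
    set q := pw (x (Fin.last k)) (u (Fin.last k)) with hq
    have h1 : d (P * (z * q)) (P * q * z) ≤ d (z * x (Fin.last k)) (x (Fin.last k) * z) := by
      rw [mul_assoc P q z, hd.left, hq]
      unfold pw
      split_ifs
      · simp [hd.self]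
      · exact le_rfl
    have h2 : d (z * (P * q)) (P * (z * q)) ≤
        ∑ i : Fin k, d (z * x i.castSucc) (x i.castSucc * z) := by
      rw [← mul_assoc, ← mul_assoc, hd.right]
      exact ih (fun i => x i.castSucc) (fun i => u i.castSucc)
    have h3 := d_tri' hd h2 h1
    omega

lemma prodN_mul (k : ℕ) (x : Fin k → H) (u u' : Fin k → ZMod 2) :
    d (prodN k x u * prodN k x u') (prodN k x (u + u')) ≤
      ∑ j, ∑ i, if j = i then d (x j * x i) 1 else d (x j * x i) (x i * x j) := by
  induction k with
  | zero => simp [prodN, hd.self]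
  | succ k ih =>
    rw [Fin.sum_univ_castSucc]
    have hlast : (∑ i : Fin (k + 1), if Fin.last k = i then d (x (Fin.last k) * x i) 1 else
        d (x (Fin.last k) * x i) (x i * x (Fin.last k)))
        = (∑ i : Fin k, d (x (Fin.last k) * x i.castSucc) (x i.castSucc * x (Fin.last k))) +
          d (x (Fin.last k) * x (Fin.last k)) 1 := by
      rw [Fin.sum_univ_castSucc]
      congr 1
      · refine Finset.sum_congr rfl ?_
        intro i _
        rw [if_neg (Fin.castSucc_lt_last i).ne']
      · rw [if_pos rfl]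
    have hrest : (∑ j : Fin k, ∑ i : Fin k, if j = i then d (x j.castSucc * x i.castSucc) 1 else
        d (x j.castSucc * x i.castSucc) (x i.castSucc * x j.castSucc)) ≤
        (∑ j : Fin k, ∑ i : Fin (k + 1), if j.castSucc = i then d (x j.castSucc * x i) 1 else
        d (x j.castSucc * x i) (x i * x j.castSucc)) := by
      refine Finset.sum_le_sum ?_
      intro j _
      rw [Fin.sum_univ_castSucc]
      simp only [Fin.castSucc_inj]
      omega
    rw [hlast]
    have ih' := (ih (fun i => x i.castSucc) (fun i => u i.castSucc)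
      (fun i => u' i.castSucc)).trans hrest
    unfold prodN
    set P := prodN k (fun i => x i.castSucc) (fun i => u i.castSucc) with hP
    set P' := prodN k (fun i => x i.castSucc) (fun i => u' i.castSucc) with hP'
    set y := x (Fin.last k) with hy
    set s := u (Fin.last k) with hs
    set t := u' (Fin.last k) with ht
    have e1 : (u + u') (Fin.last k) = s + t := rfl
    have e2 : (fun i : Fin k => (u + u') i.castSucc)
      = (fun i => u i.castSucc) + (fun i => u' i.castSucc) := rfl
    rw [e1, e2]
    set Q := prodN k (fun i => x i.castSucc) ((fun i => u i.castSucc) + (fun i => u' i.castSucc))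
      with hQ
    have h1 : d (P * pw y s * (P' * pw y t)) (P * P' * (pw y s * pw y t)) ≤
        ∑ i : Fin k, d (y * x i.castSucc) (x i.castSucc * y) := by
      have r1 : P * pw y s * (P' * pw y t) = P * (pw y s * P') * pw y t := by group
      have r2 : P * P' * (pw y s * pw y t) = P * (P' * pw y s) * pw y t := by group
      rw [r1, r2, hd.right, hd.left]
      unfold pw
      split_ifs with h0
      · simp [hd.self]
      · exact prodN_comm' hd k (fun i => x i.castSucc) (fun i => u' i.castSucc) y
    have h2 : d (P * P' * (pw y s * pw y t)) (Q * pw y (s + t)) ≤ _ :=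
      (d_mul hd _ _ _ _).trans (Nat.add_le_add ih' (pw_mul hd y s t))
    have h3 := d_tri' hd h1 h2
    omega

omit hd in
/-- value of a relator -/
noncomputable def val (a : Gen V k → H) (t : Idx V k) : H := FreeGroup.lift a (rel t)

/-- defect of a relator of the first kind -/
lemma val_inl (a : Gen V k → H) (v w : V) :
    d (val a (Sum.inl (v, w))) 1 = d (a (Sum.inl v) * a (Sum.inl w)) (a (Sum.inl (v + w))) := by
  unfold val rel
  rw [FreeGroup.lift_mk]
  simp only [word]
  by_cases hv : v = 0
  · subst hv
    by_cases hw : w = 0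
    · subst hw
      simp only [if_true, List.map_cons, List.map_nil, List.prod_cons, List.prod_nil, mul_one,
        cond_true, add_zero]
      have := hd.right (a (Sum.inl 0)) 1 (a (Sum.inl 0))
      rw [one_mul] at this
      exact this.symm
    · simp only [if_true, if_neg hw, List.map_cons, List.map_nil, List.prod_cons, List.prod_nil,
        mul_one, cond_true, cond_false, zero_add]
      have h1 := hd.left ((a (Sum.inl w))⁻¹ * (a (Sum.inl 0) * a (Sum.inl w))) 1 (a (Sum.inl w))
      rw [← h1]
      simp
  · simp only [if_neg hv, List.map_cons, List.map_nil, List.prod_cons, List.prod_nil, mul_one,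
        cond_true, cond_false]
    rw [← mul_assoc, d_inv hd]

lemma val_inm (a : Gen V k → H) (i j : Fin k) :
    d (val a (Sum.inr (Sum.inl (i, j)))) 1 =
      if i = j then d (a (Sum.inr i) * a (Sum.inr j)) 1
      else d (a (Sum.inr i) * a (Sum.inr j)) (a (Sum.inr j) * a (Sum.inr i)) := by
  unfold val rel
  rw [FreeGroup.lift_mk]
  simp only [word]
  by_cases hij : i = j
  · subst hij
    simp
  · simp only [if_neg hij, List.map_cons, List.map_nil, List.prod_cons, List.prod_nil, mul_one,
        cond_true, cond_false]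
    rw [← mul_assoc, ← mul_inv_rev, d_inv hd]

lemma val_inr (a : Gen V k → H) (i : Fin k) (v : V) :
    d (val a (Sum.inr (Sum.inr (i, v)))) 1 =
      d (a (Sum.inr i) * a (Sum.inl v)) (a (Sum.inl v) * a (Sum.inr i)) := by
  unfold val rel
  rw [FreeGroup.lift_mk]
  simp only [word, List.map_cons, List.map_nil, List.prod_cons, List.prod_nil, mul_one,
        cond_true, cond_false]
  rw [← mul_assoc, ← mul_inv_rev, d_inv hd]

omit hd in
/-- total defect -/
noncomputable def DD (d : H → H → ℕ) (a : Gen V k → H) : ℕ := ∑ t, d (val a t) 1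

lemma DD_eq (a : Gen V k → H) : DD d a =
    (∑ v : V, ∑ w : V, d (a (Sum.inl v) * a (Sum.inl w)) (a (Sum.inl (v + w)))) +
    ((∑ i, ∑ j, if i = j then d (a (Sum.inr i) * a (Sum.inr j)) 1
      else d (a (Sum.inr i) * a (Sum.inr j)) (a (Sum.inr j) * a (Sum.inr i))) +
    ∑ i, ∑ v, d (a (Sum.inr i) * a (Sum.inl v)) (a (Sum.inl v) * a (Sum.inr i))) := by
  unfold DD
  rw [Fintype.sum_sum_type, Fintype.sum_sum_type, Fintype.sum_prod_type, Fintype.sum_prod_type,
    Fintype.sum_prod_type]
  simp only [val_inl hd, val_inm hd, val_inr hd]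

omit hd in
/-- the normal form map -/
def nf (a : Gen V k → H) (g : V × (Fin k → ZMod 2)) : H :=
  a (Sum.inl g.1) * prodN k (fun i => a (Sum.inr i)) g.2

lemma nf_mul (a : Gen V k → H) (g h : V × (Fin k → ZMod 2)) :
    d (nf a g * nf a h) (nf a (g + h)) ≤ DD d a := by
  rw [DD_eq hd]
  unfold nf
  set x : Fin k → H := fun i => a (Sum.inr i) with hx
  set P := prodN k x g.2 with hP
  set P' := prodN k x h.2 with hP'
  have e : (g + h).2 = g.2 + h.2 := rfl
  have e' : (g + h).1 = g.1 + h.1 := rfl
  rw [e, e']
  have h1 : d (a (Sum.inl g.1) * P * (a (Sum.inl h.1) * P'))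
      (a (Sum.inl g.1) * a (Sum.inl h.1) * (P * P')) ≤
      ∑ i, ∑ v, d (a (Sum.inr i) * a (Sum.inl v)) (a (Sum.inl v) * a (Sum.inr i)) := by
    have r1 : a (Sum.inl g.1) * P * (a (Sum.inl h.1) * P')
      = a (Sum.inl g.1) * (P * a (Sum.inl h.1)) * P' := by group
    have r2 : a (Sum.inl g.1) * a (Sum.inl h.1) * (P * P')
      = a (Sum.inl g.1) * (a (Sum.inl h.1) * P) * P' := by group
    rw [r1, r2, hd.right, hd.left]
    refine (prodN_comm hd k x g.2 (a (Sum.inl h.1))).trans (Finset.sum_le_sum ?_)
    intro i _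
    exact Finset.single_le_sum (f := fun v => d (a (Sum.inr i) * a (Sum.inl v))
      (a (Sum.inl v) * a (Sum.inr i))) (fun _ _ => Nat.zero_le _) (Finset.mem_univ h.1)
  have h2 : d (a (Sum.inl g.1) * a (Sum.inl h.1) * (P * P'))
      (a (Sum.inl (g.1 + h.1)) * prodN k x (g.2 + h.2)) ≤
      (∑ v : V, ∑ w : V, d (a (Sum.inl v) * a (Sum.inl w)) (a (Sum.inl (v + w)))) +
      (∑ i, ∑ j, if i = j then d (a (Sum.inr i) * a (Sum.inr j)) 1
      else d (a (Sum.inr i) * a (Sum.inr j)) (a (Sum.inr j) * a (Sum.inr i))) := by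
    refine (d_mul hd _ _ _ _).trans (Nat.add_le_add ?_ (prodN_mul hd k x g.2 h.2))
    refine le_trans ?_ (Finset.single_le_sum (f := fun v => ∑ w : V, d (a (Sum.inl v) *
      a (Sum.inl w)) (a (Sum.inl (v + w)))) (fun _ _ => Nat.zero_le _) (Finset.mem_univ g.1))
    exact Finset.single_le_sum (f := fun w => d (a (Sum.inl g.1) * a (Sum.inl w))
      (a (Sum.inl (g.1 + w)))) (fun _ _ => Nat.zero_le _) (Finset.mem_univ h.1)
  have h3 := d_tri' hd h1 h2
  omega

omit hd in
lemma nf_inl (a : Gen V k → H) (v : V) : nf a (v, 0) = a (Sum.inl v) := by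
  unfold nf
  rw [prodN_zero, mul_one]

lemma nf_inr (a : Gen V k → H) (i : Fin k) :
    d (nf a (0, Pi.single i 1)) (a (Sum.inr i)) ≤ DD d a := by
  unfold nf
  simp only
  rw [prodN_single, DD_eq hd]
  have h1 := hd.right (a (Sum.inl 0)) 1 (a (Sum.inr i))
  rw [one_mul] at h1
  rw [h1]
  have h2 := hd.right (a (Sum.inl 0)) 1 (a (Sum.inl 0))
  rw [one_mul] at h2
  rw [← h2]
  have h3 : d (a (Sum.inl 0) * a (Sum.inl 0)) (a (Sum.inl 0)) ≤
      ∑ v : V, ∑ w : V, d (a (Sum.inl v) * a (Sum.inl w)) (a (Sum.inl (v + w))) := by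
    refine le_trans ?_ (Finset.single_le_sum (f := fun v => ∑ w : V, d (a (Sum.inl v) *
      a (Sum.inl w)) (a (Sum.inl (v + w)))) (fun _ _ => Nat.zero_le _) (Finset.mem_univ 0))
    refine le_trans ?_ (Finset.single_le_sum (f := fun w => d (a (Sum.inl 0) * a (Sum.inl w))
      (a (Sum.inl (0 + w)))) (fun _ _ => Nat.zero_le _) (Finset.mem_univ 0))
    simp
  omega

omit hd

/-! ### The presented group -/

/-- the discrete distance -/
def dd [DecidableEq H] (a b : H) : ℕ := if a = b then 0 else 1

lemma dd_biInv [DecidableEq H] : BiInv (dd : H → H → ℕ) where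
  self a := by simp [dd]
  symm a b := by simp [dd, eq_comm]
  tri a b c := by
    unfold dd
    by_cases h1 : a = b
    · by_cases h2 : b = c
      · simp [h1, h2]
      · simp [h1, h2]
    · simp only [if_neg h1]
      split_ifs <;> omega
  left a b c := by simp [dd]
  right a b c := by simp [dd]

lemma dd_zero [DecidableEq H] {a b : H} (h : dd a b = 0) : a = b := by
  unfold dd at h
  by_contra hne
  rw [if_neg hne] at h
  exact one_ne_zero h

/-- the group -/
abbrev GG (V : Type) (k : ℕ) : Type := Multiplicative (V × (Fin k → ZMod 2))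

/-- generators in the group -/
def gen : Gen V k → GG V k
  | Sum.inl v => Multiplicative.ofAdd (v, 0)
  | Sum.inr i => Multiplicative.ofAdd (0, Pi.single i 1)

lemma gen_inl (v : V) : (gen (Sum.inl v) : GG V k) = Multiplicative.ofAdd (v, 0) := rfl

lemma gen_inr (i : Fin k) : (gen (Sum.inr i) : GG V k)
    = Multiplicative.ofAdd (0, Pi.single i 1) := rfl

lemma val_gen (t : Idx V k) : val (gen : Gen V k → GG V k) t = 1 := by
  classical
  apply dd_zero
  rcases t with ⟨v, w⟩ | ⟨i, j⟩ | ⟨i, v⟩
  · rw [val_inl dd_biInv]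
    have : gen (Sum.inl v) * gen (Sum.inl w) = (gen (Sum.inl (v + w)) : GG V k) := by
      rw [gen_inl, gen_inl, gen_inl, ← ofAdd_add, Prod.mk_add_mk, add_zero]
    rw [this, dd_biInv.self]
  · rw [val_inm dd_biInv]
    split_ifs with h
    · subst h
      have : gen (Sum.inr i) * gen (Sum.inr i) = (1 : GG V k) := by
        have h2 : ∀ t : ZMod 2, t + t = 0 := by decide
        rw [gen_inr, ← ofAdd_add, Prod.mk_add_mk, add_zero]
        have h3 : (Pi.single i 1 + Pi.single i 1 : Fin k → ZMod 2) = 0 := by
          funext l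
          exact h2 _
        rw [h3]
        rfl
      rw [this, dd_biInv.self]
    · rw [mul_comm, dd_biInv.self]
  · rw [val_inr dd_biInv]
    rw [mul_comm, dd_biInv.self]

/-- the presented group -/
abbrev PG (V : Type) [AddCommGroup V] [DecidableEq V] (k : ℕ) : Type :=
  PresentedGroup (Set.range (rel : Idx V k → FreeGroup (Gen V k)))

/-- the canonical homomorphism -/
noncomputable def phi : PG V k →* GG V k :=
  PresentedGroup.toGroup (f := gen) (by
    rintro r ⟨t, rfl⟩
    exact val_gen t)

lemma val_of (t : Idx V k) : val (PresentedGroup.of : Gen V k → PG V k) t = 1 := by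
  unfold val
  have : FreeGroup.lift (PresentedGroup.of : Gen V k → PG V k) = PresentedGroup.mk _ := by
    apply FreeGroup.ext_hom
    intro a
    rw [FreeGroup.lift_apply_of]
    rfl
  rw [this]
  exact PresentedGroup.one_of_mem ⟨t, rfl⟩

lemma DD_of [DecidableEq (PG V k)] :
    DD dd (PresentedGroup.of : Gen V k → PG V k) = 0 := by
  unfold DD
  refine Finset.sum_eq_zero ?_
  intro t _
  rw [val_of, dd_biInv.self]

/-- the inverse homomorphism -/
noncomputable def psi : GG V k →* PG V k :=
  MonoidHom.mk' (fun g => nf PresentedGroup.of (Multiplicative.toAdd g)) (by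
    classical
    intro g h
    symm
    apply dd_zero
    have := nf_mul dd_biInv (PresentedGroup.of : Gen V k → PG V k)
      (Multiplicative.toAdd g) (Multiplicative.toAdd h)
    rw [DD_of] at this
    exact Nat.le_zero.1 this)

lemma psi_gen (s : Gen V k) : (psi (gen s) : PG V k) = PresentedGroup.of s := by
  classical
  rcases s with v | i
  · exact nf_inl _ v
  · apply dd_zero
    have := nf_inr dd_biInv (PresentedGroup.of : Gen V k → PG V k) i
    rw [DD_of] at this
    exact Nat.le_zero.1 this

lemma prodN_comm_eq {A : Type} [CommGroup A] (k : ℕ) (x : Fin k → A) (u : Fin k → ZMod 2) :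
    prodN k x u = ∏ i, pw (x i) (u i) := by
  induction k with
  | zero => simp [prodN]
  | succ k ih =>
    rw [Fin.prod_univ_castSucc]
    unfold prodN
    rw [ih]

lemma map_prodN {A B : Type} [Group A] [Group B] (F : A →* B) (k : ℕ) (x : Fin k → A)
    (u : Fin k → ZMod 2) : F (prodN k x u) = prodN k (fun i => F (x i)) u := by
  induction k with
  | zero => simp [prodN]
  | succ k ih =>
    unfold prodN
    rw [map_mul, ih]
    congr 1
    unfold pw
    split_ifs <;> simp

lemma nf_gen (g : V × (Fin k → ZMod 2)) : nf gen g = (Multiplicative.ofAdd g : GG V k) := by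
  unfold nf
  rw [prodN_comm_eq]
  have h1 : ∀ i : Fin k, pw (gen (Sum.inr i) : GG V k) (g.2 i)
      = Multiplicative.ofAdd ((0 : V), (Pi.single i (g.2 i) : Fin k → ZMod 2)) := by
    intro i
    unfold pw
    have hs : g.2 i = 0 ∨ g.2 i = 1 := by
      generalize g.2 i = t
      revert t
      decide
    rcases hs with h | h
    · rw [if_pos h, h, Pi.single_zero]
      rfl
    · rw [if_neg (by rw [h]; decide), h]
      rfl
  rw [Finset.prod_congr rfl (fun i _ => h1 i), ← ofAdd_sum, gen_inl, ← ofAdd_add]
  congr 1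
  refine Prod.ext ?_ ?_
  · simp [Prod.fst_sum]
  · simp only [Prod.snd_add, Prod.snd_sum, zero_add]
    rw [Finset.univ_sum_single]

lemma phi_psi (g : GG V k) : phi (psi g : PG V k) = g := by
  change phi (nf PresentedGroup.of (Multiplicative.toAdd g)) = g
  unfold nf
  rw [map_mul, map_prodN]
  have h1 : ∀ s : Gen V k, phi (PresentedGroup.of s : PG V k) = gen s := by
    intro s
    exact PresentedGroup.toGroup.of _
  simp only [h1]
  exact nf_gen _

lemma psi_phi : (psi.comp phi : PG V k →* PG V k) = MonoidHom.id _ := by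
  apply PresentedGroup.ext
  intro s
  change psi (phi (PresentedGroup.of s)) = _
  have h1 : phi (PresentedGroup.of s : PG V k) = gen s := PresentedGroup.toGroup.of _
  rw [h1, psi_gen]
  rfl

/-- the isomorphism -/
theorem iso : Nonempty (PG V k ≃* GG V k) :=
  ⟨MonoidHom.toMulEquiv phi psi psi_phi (MonoidHom.ext phi_psi)⟩

end Pool.Agent.W400.StabWords
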