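import Pool.Agent.W886.PM.Stm0

set_option autoImplicit false

namespace Pool.Agent.W400.PMTOTC

open Pool.Agent.NPC Pool.Agent.H620R2.Gauge Pool.Agent.H943R6.MC Pool.Agent.H622R2.Ckt
open Pool.Agent.W886.PM

theorem lift_inst (j : ℕ) (T : Fin (2 ^ (2 * j)) → Bool) :
    lift 0 (inst j T) = pairBits (pairBits (List.ofFn T) ((List.ofFn T).map (fun _ => true)))
      (List.replicate (Pool.Agent.H943R6.MC.sz j) true) := by
  unfold lift inst
  rw [unpair_pairBits]
  simp

theorem len_table (n : ℕ) (f : List Bool → Bool) : (table n f).length = 2 ^ n := by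
  unfold table
  rw [List.length_map, length_cube]

theorem task : Pool.Agent.W886.PM.S_TOTC := by
  intro A j T
  rw [lift_inst]
  constructor
  · rintro ⟨n, s, T', M, C, hC, ⟨hT, hM, hag⟩, he⟩
    obtain ⟨h1, h2⟩ := HRD.pairBits_inj he
    obtain ⟨h3, h4⟩ := HRD.pairBits_inj h1
    refine ⟨n, s, C, trivial, hC, ?_⟩
    unfold inst
    rw [h2]
    congr 1
    refine List.ext_getElem ?_ ?_
    · rw [h3, hT, len_table]
    · intro i hi1 hi2
      have hi : i < 2 ^ n := by rw [len_table] at hi2; exact hi2
      have hm : M.getD i false = true := by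
        rw [← h4, List.getD_eq_getElem _ _ (by rw [List.length_map]; exact hi1),
          List.getElem_map]
      have h5 := hag i hi hm
      rw [List.getD_eq_getElem _ _ hi2, List.getD_eq_getElem _ _ (by rw [hT]; exact hi)] at h5
      rw [h5]
      simp only [h3]
  · rintro ⟨n, s, C, -, hC, he⟩
    unfold inst at he
    obtain ⟨h1, h2⟩ := HRD.pairBits_inj he
    refine ⟨n, s, List.ofFn T, (List.ofFn T).map (fun _ => true), C, hC, ⟨?_, ?_, ?_⟩, ?_⟩
    · rw [h1, len_table]
    · rw [List.length_map, h1, len_table]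
    · intro i _ _
      rw [h1]
    · rw [h2]

end Pool.Agent.W400.PMTOTC
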